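import Pool.Agent.Q279.MC.Stm
import Pool.Agent.Q279.MC.J.DV
import Pool.Agent.Q279.MC.J.BQ
import Pool.Agent.Q279.MC.J.QR
import Pool.Agent.Q279.MC.J.TC
import Pool.Agent.Q279.MC.J.FI
import Pool.Agent.Q279.MC.J.FP
import Pool.Agent.Q279.MC.J.SM
import Pool.Agent.Q279.MC.J.FN

set_option autoImplicit false

namespace Pool.Agent.Q279.MC

theorem all_FP : S_FP := JFP.main

theorem all_QR : S_QR := JQR.main (JBQ.main JDV.main)

theorem all_FI : S_FI := JFI.main all_QR JTC.main

theorem all_FN : S_FN := JFN.main all_FI JSM.main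

end Pool.Agent.Q279.MC
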