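import Mathlib

/-!
Non-emptiness of the open subset of the quadric bundle (over the algebraic closure).
-/

set_option autoImplicit false
set_option linter.all false

namespace Pool.Agent.Q279.MC.NE

open MvPolynomial Finset

variable {K : Type} [Field K] [CharZero K] {s N : ℕ}

/-- A nonzero value of the form, all `t_k ≠ 0`. -/
theorem exists_value (f : Fin s → Fin s → MvPolynomial (Fin N) K) (hN : 1 ≤ N)
    (h : ∃ k l, f k l + f l k ≠ 0) :
    ∃ (v : Fin N → K) (t : Fin s → K), v ≠ 0 ∧ (∀ k, t k ≠ 0) ∧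
      ∑ k, ∑ l, eval v (f k l) * t k * t l ≠ 0 := by
  classical
  obtain ⟨k₀, l₀, h₀⟩ := h
  -- choose `v`
  have h1 : (f k₀ l₀ + f l₀ k₀) * X (⟨0, hN⟩ : Fin N) ≠ 0 := mul_ne_zero h₀ (X_ne_zero _)
  obtain ⟨v, hv⟩ : ∃ v : Fin N → K, eval v ((f k₀ l₀ + f l₀ k₀) * X (⟨0, hN⟩ : Fin N)) ≠ 0 := by
    by_contra hcon
    push Not at hcon
    exact h1 (MvPolynomial.funext fun v => by rw [hcon v, map_zero])
  have hv1 : eval v (f k₀ l₀) + eval v (f l₀ k₀) ≠ 0 := by
    intro h; apply hv; rw [map_mul, map_add, h, zero_mul]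
  have hv0 : v ≠ 0 := by
    intro h; apply hv; rw [map_mul, eval_X, h]; simp
  set g : Fin s → Fin s → K := fun k l => eval v (f k l) with hg
  have hg0 : g k₀ l₀ + g l₀ k₀ ≠ 0 := hv1
  -- the quadratic form is not zero
  set R : (Fin s → K) → K := fun t => ∑ k, ∑ l, g k l * t k * t l with hR
  have hR0 : ∃ t : Fin s → K, R t ≠ 0 := by
    by_contra hcon
    push Not at hcon
    apply hg0
    have e1 := hcon (Pi.single k₀ 1 + Pi.single l₀ 1)
    have e2 := hcon (Pi.single k₀ 1)
    have e3 := hcon (Pi.single l₀ 1)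
    have e4 : R (Pi.single k₀ 1 + Pi.single l₀ 1) = R (Pi.single k₀ 1) + R (Pi.single l₀ 1) +
        (∑ k, ∑ l, g k l * (Pi.single k₀ 1 : Fin s → K) k * (Pi.single l₀ 1 : Fin s → K) l +
         ∑ k, ∑ l, g k l * (Pi.single l₀ 1 : Fin s → K) k * (Pi.single k₀ 1 : Fin s → K) l) := by
      simp only [hR, ← Finset.sum_add_distrib, Pi.add_apply]
      refine Finset.sum_congr rfl fun k _ => Finset.sum_congr rfl fun l _ => ?_
      ring
    have e5 : ∀ a b : Fin s, ∑ k, ∑ l, g k l * (Pi.single a 1 : Fin s → K) k *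
        (Pi.single b 1 : Fin s → K) l = g a b := by
      intro a b
      rw [Finset.sum_eq_single a, Finset.sum_eq_single b]
      · simp
      · intro l _ hl; simp [Pi.single_eq_of_ne hl]
      · simp
      · intro k _ hk; simp [Pi.single_eq_of_ne hk]
      · simp
    rw [e1, e2, e3, e5, e5] at e4
    linear_combination -e4
  obtain ⟨t₀, ht₀⟩ := hR0
  -- as a polynomial
  set Q : MvPolynomial (Fin s) K := ∑ k, ∑ l, C (g k l) * X k * X l with hQ
  have hQe : ∀ t : Fin s → K, eval t Q = R t := by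
    intro t; simp [hQ, hR, map_sum]
  have hQ0 : Q ≠ 0 := by
    intro h; apply ht₀; rw [← hQe, h, map_zero]
  have h2 : Q * ∏ k, X k ≠ 0 := mul_ne_zero hQ0 (Finset.prod_ne_zero_iff.2 fun k _ => X_ne_zero _)
  obtain ⟨t, ht⟩ : ∃ t : Fin s → K, eval t (Q * ∏ k, X k) ≠ 0 := by
    by_contra hcon
    push Not at hcon
    exact h2 (MvPolynomial.funext fun v => by rw [hcon v, map_zero])
  rw [map_mul, map_prod] at ht
  refine ⟨v, t, hv0, fun k hk => ?_, ?_⟩
  · apply ht
    rw [Finset.prod_eq_zero (Finset.mem_univ k), mul_zero]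
    rw [eval_X, hk]
  · intro h
    apply ht
    rw [hQe, hR]
    simp only [hg]
    rw [h, zero_mul]

theorem eval_smul {L : Type} [Field L] {N n : ℕ} {φ : MvPolynomial (Fin N) L}
    (hφ : φ.IsHomogeneous n) (c : L) (v : Fin N → L) : eval (c • v) φ = c ^ n * eval v φ := by
  rw [MvPolynomial.eval_eq', MvPolynomial.eval_eq', Finset.mul_sum]
  refine Finset.sum_congr rfl fun d hd => ?_
  have h1 : ∏ i, (c • v) i ^ d i = c ^ n * ∏ i, v i ^ d i := by
    have h2 : ∑ i, d i = n := by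
      have := hφ (MvPolynomial.mem_support_iff.1 hd)
      rw [Finsupp.weight_apply] at this
      rw [← this, Finsupp.sum_fintype _ _ (by simp)]
      simp
    rw [← h2, ← Finset.prod_pow_eq_pow_sum, ← Finset.prod_mul_distrib]
    refine Finset.prod_congr rfl fun i _ => ?_
    rw [Pi.smul_apply, smul_eq_mul, mul_pow]
  rw [h1]
  ring

end Pool.Agent.Q279.MC.NE
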