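import Pool.Agent.Q35.MM.Stm

/-!
Project MC (MP_18ea5f_nt): the weak Manin conjecture for the quadric bundles
`a_1 y_1 ^ 2 + ... + a_r y_r ^ 2 = ∑ f_kl(u) t_k t_l` with constant `a_i`, over number fields.

`S1 K b`: the integral elements of `K` all of whose conjugates have absolute value at most `b`;
`bx K m b`: the vectors with coordinates in `S1 K b`; `dg K`: the degree of `K`.
-/

set_option autoImplicit false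

namespace Pool.Agent.Q279.MC

open Finset
open Pool.Agent.Q35.MM

/-- DV: the number of factorisations `γ = x y` with `x`, `y` in a box. -/
def S_DV : Prop :=
  ∀ (E : Type) [Field E] [NumberField E] (δ : ℝ), 0 < δ → ∃ C : ℝ, 0 ≤ C ∧ ∀ B : ℕ, 1 ≤ B →
    ∀ γ : E, γ ≠ 0 → ∀ Z : Finset (E × E),
      (∀ p ∈ Z, p.1 ∈ S1 E B ∧ p.2 ∈ S1 E B ∧ p.1 * p.2 = γ) → (Z.card : ℝ) ≤ C * (B : ℝ) ^ δ

/-- BQ: binary quadratic forms. -/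
def S_BQ : Prop :=
  ∀ (K : Type) [Field K] [NumberField K] (a b : K), a ≠ 0 → b ≠ 0 → ∀ δ : ℝ, 0 < δ →
    ∃ C : ℝ, 0 ≤ C ∧ ∀ B : ℕ, 1 ≤ B → ∀ γ : K, γ ≠ 0 → ∀ Z : Finset (K × K),
      (∀ p ∈ Z, p.1 ∈ S1 K B ∧ p.2 ∈ S1 K B ∧ a * p.1 ^ 2 + b * p.2 ^ 2 = γ) →
      (Z.card : ℝ) ≤ C * (B : ℝ) ^ δ

/-- QR: quadratic forms in `r ≥ 2` variables. -/
def S_QR : Prop :=
  ∀ (K : Type) [Field K] [NumberField K] (r : ℕ), 2 ≤ r → ∀ a : Fin r → K, (∀ i, a i ≠ 0) →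
    ∀ δ : ℝ, 0 < δ → ∃ C : ℝ, 0 ≤ C ∧ ∀ B : ℕ, 1 ≤ B → ∀ γ : K, γ ≠ 0 →
      ∀ Z : Finset (Fin r → K), (∀ y ∈ Z, y ∈ bx K r B ∧ ∑ i, a i * y i ^ 2 = γ) →
      (Z.card : ℝ) ≤ C * (B : ℝ) ^ ((dg K : ℝ) * ((r : ℝ) - 2) + δ)

/-- TC: the scalars `t` for which all `t u_j ^ e` are in a box. -/
def S_TC : Prop :=
  ∀ (K : Type) [Field K] [NumberField K] (N e : ℕ), ∃ C : ℝ, 0 ≤ C ∧
    ∀ u : Fin N → K, u ≠ 0 → ∀ Y : ℕ, 1 ≤ Y → ∀ Z : Finset K,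
      (∀ t ∈ Z, t ≠ 0 ∧ ∀ j, t * u j ^ e ∈ S1 K Y) →
      (Z.card : ℝ) * Height.mulHeight u ^ e ≤ C * (Y : ℝ) ^ dg K

section

variable {K : Type} [Field K] {r s N : ℕ}

/-- The coordinates `y_i` and `t_k u_j ^ (e k)` of a point. -/
def vec (e : Fin s → ℕ) (u : Fin N → K) (y : Fin r → K) (t : Fin s → K) :
    Fin r ⊕ (Fin s × Fin N) → K :=
  Sum.elim y fun p => t p.1 * u p.2 ^ e p.1

/-- The points over `u` of the quadric bundle with `t_k ≠ 0` and `q(y) ≠ 0`, the quadratic form in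
`t` having the coefficients `g k l`. -/
def Fib (a : Fin r → K) (e : Fin s → ℕ) (u : Fin N → K) (g : Fin s → Fin s → K) :
    Set (Projectivization K (Fin r ⊕ (Fin s × Fin N) → K)) :=
  {w | ∃ (y : Fin r → K) (t : Fin s → K), w.rep = vec e u y t ∧ (∀ k, t k ≠ 0) ∧
    ∑ i, a i * y i ^ 2 = ∑ k, ∑ l, g k l * t k * t l ∧ ∑ i, a i * y i ^ 2 ≠ 0}

end

/-- FI: the points of bounded height on a fibre. -/
def S_FI : Prop :=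
  ∀ (K : Type) [Field K] [NumberField K] (r s N : ℕ), 2 ≤ r → 1 ≤ s → ∀ a : Fin r → K,
    (∀ i, a i ≠ 0) → ∀ (e : Fin s → ℕ) (δ : ℝ), 0 < δ → ∃ C : ℝ, 1 ≤ C ∧
      ∀ u : Fin N → K, u ≠ 0 → ∀ (g : Fin s → Fin s → K) (R : ℝ), 1 ≤ R →
        ({w | w ∈ Fib a e u g ∧ w.mulHeight ≤ R}).Finite ∧
        (({w | w ∈ Fib a e u g ∧ w.mulHeight ≤ R}).ncard : ℝ) *
            Height.mulHeight u ^ (∑ k, e k) ≤ C * R ^ ((r : ℝ) + s - 2 + δ) ∧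
        (({w | w ∈ Fib a e u g ∧ w.mulHeight ≤ R}).Nonempty →
          ∀ k, Height.mulHeight u ^ e k ≤ C * R)

/-- FP: the points of bounded height of the projective space. -/
def S_FP : Prop :=
  ∀ (K : Type) [Field K] [NumberField K] (N : ℕ), ∃ C : ℝ, ∀ T : ℝ, 1 ≤ T →
    ({p : Projectivization K (Fin N → K) | p.mulHeight ≤ T}).Finite ∧
    (({p : Projectivization K (Fin N → K) | p.mulHeight ≤ T}).ncard : ℝ) ≤ C * T ^ (N : ℝ)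

/-- SM: summation over the base. -/
def S_SM : Prop :=
  ∀ (P : Type) (h : P → ℝ) (A : ℝ), (∀ p, 1 ≤ h p) → 0 ≤ A →
    (∀ ε : ℝ, 0 < ε → ∃ C : ℝ, ∀ T : ℝ, 1 ≤ T → ({p | h p ≤ T}).Finite ∧
      (({p | h p ≤ T}).ncard : ℝ) ≤ C * T ^ (A + ε)) →
    ∀ γ ε : ℝ, 0 < ε → ∃ C : ℝ, 0 ≤ C ∧ ∀ Z : ℝ, 1 ≤ Z → ∀ S : Finset P, (∀ p ∈ S, h p ≤ Z) →
      ∑ p ∈ S, h p ^ (-γ) ≤ C * Z ^ (max 0 (A - γ) + ε)

/-- The threshold. -/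
noncomputable def thr (r s m : ℕ) (e : Fin s → ℕ) (A α β : ℝ) : ℝ :=
  sInf {σ : ℝ | 0 ≤ σ * β - ((r : ℝ) + s - 2) ∧
    0 ≤ (σ * α + ∑ k, (e k : ℝ) - A) + m * (σ * β - ((r : ℝ) + s - 2))}

/-- FN: the count. -/
def S_FN : Prop :=
  ∀ (K : Type) [Field K] [NumberField K] (r s N m : ℕ), 2 ≤ r → 1 ≤ s → ∀ a : Fin r → K,
    (∀ i, a i ≠ 0) → ∀ e : Fin s → ℕ, (∀ k, e k ≤ m) → (∃ k, e k = m) →
    ∀ (g : Projectivization K (Fin N → K) → Fin s → Fin s → K)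
      (B : Set (Projectivization K (Fin N → K))) (A : ℝ), 0 ≤ A →
    (∀ ε : ℝ, 0 < ε → ∃ C : ℝ, ∀ T : ℝ, 1 ≤ T → ({p | p ∈ B ∧ p.mulHeight ≤ T}).Finite ∧
      (({p | p ∈ B ∧ p.mulHeight ≤ T}).ncard : ℝ) ≤ C * T ^ (A + ε)) →
    ∀ α β : ℝ, 0 ≤ α → 0 < β → 0 < α + m * β → ∀ ε : ℝ, 0 < ε → ∃ C : ℝ, ∀ T : ℝ, 1 ≤ T →
      ({x : Projectivization K (Fin N → K) × Projectivization K (Fin r ⊕ (Fin s × Fin N) → K) |
        x.1 ∈ B ∧ x.2 ∈ Fib a e x.1.rep (g x.1) ∧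
          x.1.mulHeight ^ α * x.2.mulHeight ^ β ≤ T}).Finite ∧
      (({x : Projectivization K (Fin N → K) × Projectivization K (Fin r ⊕ (Fin s × Fin N) → K) |
        x.1 ∈ B ∧ x.2 ∈ Fib a e x.1.rep (g x.1) ∧
          x.1.mulHeight ^ α * x.2.mulHeight ^ β ≤ T}).ncard : ℝ) ≤
        C * T ^ (thr r s m e A α β + ε)

end Pool.Agent.Q279.MC
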